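import Pool.Agent.H.MP_935800_an.Defs

set_option autoImplicit false

namespace Pool.Agent.H.MP_935800_an

open Set Filter Topology

variable {d : ℕ}

lemma pd_nil (f : (Fin d → ℝ) → ℝ) : pd [] f = f := rfl
lemma pd_cons (i : Fin d) (w : List (Fin d)) (f : (Fin d → ℝ) → ℝ) :
    pd (i :: w) f = pd w (pt i f) := rfl
lemma pd_snoc (i : Fin d) (w : List (Fin d)) (f : (Fin d → ℝ) → ℝ) :
    pd (w ++ [i]) f = pt i (pd w f) := by
  unfold pd; rw [List.foldl_append]; rfl

lemma pt_congr {U : Set (Fin d → ℝ)} (hU : IsOpen U) {f g : (Fin d → ℝ) → ℝ} (h : EqOn f g U)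
    (i : Fin d) : EqOn (pt i f) (pt i g) U := fun _ hx =>
  Filter.EventuallyEq.lineDeriv_eq (h.eventuallyEq_of_mem (hU.mem_nhds hx))

lemma pd_congr {U : Set (Fin d → ℝ)} (hU : IsOpen U) (w : List (Fin d)) :
    ∀ {f g : (Fin d → ℝ) → ℝ}, EqOn f g U → EqOn (pd w f) (pd w g) U := by
  induction w with
  | nil => exact fun h => h
  | cons i w ih => exact fun h => ih (pt_congr hU h i)

lemma pt_eq {f : (Fin d → ℝ) → ℝ} {x : Fin d → ℝ} (h : DifferentiableAt ℝ f x) (i : Fin d) :
    pt i f x = fderiv ℝ f x (Pi.single i 1) := h.lineDeriv_eq_fderiv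

lemma diffAt {U : Set (Fin d → ℝ)} (hU : IsOpen U) {f : (Fin d → ℝ) → ℝ} {m : ℕ}
    (h : ContDiffOn ℝ (m + 1 : ℕ) f U) {x : Fin d → ℝ} (hx : x ∈ U) : DifferentiableAt ℝ f x :=
  (h.differentiableOn (by simp) x hx).differentiableAt (hU.mem_nhds hx)

lemma cd_mono {U : Set (Fin d → ℝ)} {f : (Fin d → ℝ) → ℝ} {m n : ℕ}
    (h : ContDiffOn ℝ n f U) (hmn : m ≤ n) : ContDiffOn ℝ m f U := h.of_le (by exact_mod_cast hmn)

lemma cd_pt {U : Set (Fin d → ℝ)} (hU : IsOpen U) {f : (Fin d → ℝ) → ℝ} {m : ℕ}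
    (h : ContDiffOn ℝ (m + 1 : ℕ) f U) (i : Fin d) : ContDiffOn ℝ m (pt i f) U := by
  have h1 : ContDiffOn ℝ m (fderiv ℝ f) U := h.fderiv_of_isOpen hU (by simp)
  exact (h1.clm_apply contDiffOn_const).congr fun x hx => pt_eq (diffAt hU h hx) i

lemma cd_pd {U : Set (Fin d → ℝ)} (hU : IsOpen U) (w : List (Fin d)) :
    ∀ {f : (Fin d → ℝ) → ℝ} {m : ℕ}, ContDiffOn ℝ (m + w.length : ℕ) f U →
      ContDiffOn ℝ m (pd w f) U := by
  induction w with
  | nil => exact fun h => h
  | cons i w ih => exact fun h => ih (cd_pt hU h i)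

lemma pd_sum {U : Set (Fin d → ℝ)} (hU : IsOpen U) {ι : Type*} (s : Finset ι) (a : ι → ℝ)
    (w : List (Fin d)) : ∀ {f : ι → (Fin d → ℝ) → ℝ}, (∀ j ∈ s, ContDiffOn ℝ w.length (f j) U) →
      ∀ x ∈ U, pd w (fun y => ∑ j ∈ s, a j * f j y) x = ∑ j ∈ s, a j * pd w (f j) x := by
  induction w with
  | nil => exact fun _ _ _ => rfl
  | cons i w ih =>
    intro f hf x hx
    have e : EqOn (pt i fun y => ∑ j ∈ s, a j * f j y) (fun y => ∑ j ∈ s, a j * pt i (f j) y) U := by
      intro y hy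
      have hd : ∀ j ∈ s, DifferentiableAt ℝ (f j) y := fun j hj => diffAt hU (hf j hj) hy
      have h1 : HasFDerivAt (fun y => ∑ j ∈ s, a j * f j y) (∑ j ∈ s, a j • fderiv ℝ (f j) y) y :=
        HasFDerivAt.fun_sum fun j hj => (hd j hj).hasFDerivAt.const_mul (a j)
      rw [pt_eq h1.differentiableAt, h1.fderiv, _root_.sum_apply]
      exact Finset.sum_congr rfl fun j hj => by rw [pt_eq (hd j hj)]; rfl
    rw [pd_cons, pd_congr hU w e hx]
    exact ih (fun j hj => cd_pt hU (hf j hj) i) x hx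

lemma pd_lin {U : Set (Fin d → ℝ)} (hU : IsOpen U) (a b : ℝ) (w : List (Fin d))
    {f g : (Fin d → ℝ) → ℝ} (hf : ContDiffOn ℝ w.length f U) (hg : ContDiffOn ℝ w.length g U)
    {x : Fin d → ℝ} (hx : x ∈ U) :
    pd w (fun y => a * f y + b * g y) x = a * pd w f x + b * pd w g x := by
  have := pd_sum hU Finset.univ (fun j : Bool => if j then a else b) w
    (f := fun j : Bool => if j then f else g) (by
      intro j _; cases j
      · exact hg
      · exact hf) x hx
  simpa using this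

lemma pt_aff (c h : ℝ) (b : Fin d → ℝ) (f : (Fin d → ℝ) → ℝ) (i : Fin d) :
    pt i (fun y => c * f (h • y + b)) = fun y => (c * h) * pt i f (h • y + b) := by
  funext y
  have h1 := lineDeriv_smul (𝕜 := ℝ) (f := f) (x := h • y + b) (v := Pi.single i (1:ℝ)) (c := h)
  unfold pt
  rw [mul_assoc, ← smul_eq_mul h, ← h1]
  unfold lineDeriv
  rw [← deriv_const_mul_field]
  congr 1; funext t
  beta_reduce
  congr 2
  rw [smul_add, smul_comm h t]; abel

lemma pd_aff (h : ℝ) (b : Fin d → ℝ) (w : List (Fin d)) : ∀ (c : ℝ) (f : (Fin d → ℝ) → ℝ),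
    pd w (fun y => c * f (h • y + b)) = fun y => (c * h ^ w.length) * pd w f (h • y + b) := by
  induction w with
  | nil => intro c f; funext y; simp [pd_nil]
  | cons i w ih =>
    intro c f
    rw [pd_cons, pt_aff, ih, List.length_cons, pow_succ']
    funext y; rw [pd_cons, mul_assoc c]

lemma hasDeriv_line {f : (Fin d → ℝ) → ℝ} {x v : Fin d → ℝ} {s : ℝ}
    (h : DifferentiableAt ℝ f (x + s • v)) :
    HasDerivAt (fun t : ℝ => f (x + t • v)) (fderiv ℝ f (x + s • v) v) s := by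
  have h1 : HasDerivAt (fun t : ℝ => x + t • v) v s := by
    simpa using ((hasDerivAt_id s).smul_const v).const_add x
  exact h.hasFDerivAt.comp_hasDerivAt s h1

lemma exists_zero {δ : ℝ} (hδ : 0 < δ) (z0 : Fin d → ℤ) (w : List (Fin d)) :
    ∀ (U : Set (Fin d → ℝ)) (f : (Fin d → ℝ) → ℝ), IsOpen U → ContDiffOn ℝ w.length f U →
      (∀ z : Fin d → ℤ, (fun i => δ * z i) ∈ U → f (fun i => δ * z i) = 0) →
      Icc (fun i => δ * z0 i) (fun i => δ * z0 i + w.length * δ) ⊆ U →
      ∃ ξ ∈ Icc (fun i => δ * z0 i) (fun i => δ * z0 i + w.length * δ), pd w f ξ = 0 := by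
  induction w using List.reverseRecOn with
  | nil =>
    intro U f _ _ h0 hb
    have : (fun i => δ * z0 i) ∈ Icc (fun i => δ * z0 i)
        (fun i => δ * z0 i + ([] : List (Fin d)).length * δ) := by simp
    exact ⟨_, this, h0 _ (hb this)⟩
  | append_singleton w i ih =>
    intro U f hU hf h0 hb
    rw [List.length_append, List.length_singleton] at hf hb ⊢
    let v : Fin d → ℝ := δ • Pi.single i 1
    have hseg : ∀ ξ ∈ Icc (fun i => δ * z0 i) (fun i => δ * z0 i + w.length * δ),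
        ∀ s ∈ Icc (0:ℝ) 1, ξ + s • v ∈
          Icc (fun i => δ * z0 i) (fun i => δ * z0 i + (w.length + 1 : ℕ) * δ) := by
      intro ξ hξ s hs
      have hv : ∀ j, 0 ≤ (s • v) j ∧ (s • v) j ≤ δ := by
        intro j
        by_cases hj : j = i
        · subst hj; simp only [v, Pi.smul_apply, Pi.single_eq_same, smul_eq_mul, mul_one]
          constructor <;> nlinarith [hs.1, hs.2]
        · simp [v, Pi.single_eq_of_ne hj, hδ.le]
      constructor
      · intro j; have := hξ.1 j; have := (hv j).1; simp only [Pi.add_apply] at *; linarith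
      · intro j; have := hξ.2 j; have := (hv j).2; simp only [Pi.add_apply] at *; push_cast; linarith
    have hc : Continuous fun y : Fin d → ℝ => (1:ℝ) • y + v := by fun_prop
    have hU' : IsOpen (U ∩ (fun y => (1:ℝ) • y + v) ⁻¹' U) := hU.inter (hU.preimage hc)
    have hf1 : ContDiffOn ℝ w.length f U := cd_mono hf (Nat.le_succ _)
    have hf2 : ContDiffOn ℝ w.length (fun y => 1 * f ((1:ℝ) • y + v))
        (U ∩ (fun y => (1:ℝ) • y + v) ⁻¹' U) :=
      contDiffOn_const.mul (hf1.comp (by fun_prop) fun y hy => hy.2)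
    have hsub : Icc (fun i => δ * z0 i) (fun i => δ * z0 i + w.length * δ) ⊆
        U ∩ (fun y => (1:ℝ) • y + v) ⁻¹' U := by
      intro ξ hξ
      refine ⟨?_, ?_⟩
      · simpa using hb (hseg ξ hξ 0 (by simp))
      · simpa using hb (hseg ξ hξ 1 (by simp))
    obtain ⟨ξ, hξ, hz⟩ := ih _ (fun y => 1 * (1 * f ((1:ℝ) • y + v)) + (-1) * f y) hU'
      ((contDiffOn_const.mul hf2).add (contDiffOn_const.mul (hf1.mono inter_subset_left)))
      (by
        intro z hz
        have e : (1:ℝ) • (fun i => δ * (z i : ℝ)) + v = fun j => δ * ((z + Pi.single i 1 : Fin d → ℤ) j : ℝ) := by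
          funext j
          by_cases hj : j = i
          · subst hj; simp [v]; ring
          · simp [v, Pi.single_eq_of_ne hj]
        have h1 := hz.2
        simp only [mem_preimage] at h1
        rw [e] at h1
        rw [e, h0 _ h1, h0 _ hz.1]; simp) hsub
    rw [pd_lin hU' _ _ w hf2 (hf1.mono inter_subset_left) (hsub hξ), pd_aff] at hz
    have hg : ContDiffOn ℝ (0 + 1 : ℕ) (pd w f) U := cd_pd hU w (by rwa [zero_add, add_comm])
    have hD : ∀ s ∈ Icc (0:ℝ) 1, HasDerivAt (fun t : ℝ => pd w f (ξ + t • v))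
        (fderiv ℝ (pd w f) (ξ + s • v) v) s := fun s hs =>
      hasDeriv_line (diffAt hU hg (hb (hseg ξ hξ s hs)))
    obtain ⟨s, hs, hs0⟩ := exists_hasDerivAt_eq_zero zero_lt_one
      (fun s hs => (hD s hs).continuousAt.continuousWithinAt)
      (by simp only [one_smul, one_pow, mul_one, one_mul, zero_smul, add_zero] at hz ⊢; linarith)
      (fun s hs => hD s (Ioo_subset_Icc_self hs))
    refine ⟨ξ + s • v, hseg ξ hξ s (Ioo_subset_Icc_self hs), ?_⟩
    rw [pd_snoc, pt_eq (diffAt hU hg (hb (hseg ξ hξ s (Ioo_subset_Icc_self hs))))]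
    simp only [v, map_smul, smul_eq_mul] at hs0
    exact (mul_eq_zero.1 hs0).resolve_left hδ.ne'

lemma seg_bound {U : Set (Fin d → ℝ)} (hU : IsOpen U) {g : (Fin d → ℝ) → ℝ}
    (hg : ContDiffOn ℝ (0 + 1 : ℕ) g U) {B : ℝ} (hB : ∀ i, ∀ x ∈ U, |pt i g x| ≤ B)
    {x y : Fin d → ℝ} (hs : segment ℝ x y ⊆ U) : |g y - g x| ≤ d * B * ‖y - x‖ := by
  have hm : ∀ s ∈ Icc (0:ℝ) 1, x + s • (y - x) ∈ U := fun s hs' =>
    hs (by rw [segment_eq_image']; exact ⟨s, hs', rfl⟩)
  have h := norm_image_sub_le_of_norm_deriv_le_segment_01' (f := fun t : ℝ => g (x + t • (y - x)))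
    (f' := fun s => fderiv ℝ g (x + s • (y - x)) (y - x)) (C := d * B * ‖y - x‖)
    (fun s hs' => (hasDeriv_line (diffAt hU hg (hm s hs'))).hasDerivWithinAt) (by
      intro s hs'
      have hx := hm s (Ico_subset_Icc_self hs')
      have e : y - x = ∑ i, (y - x) i • (Pi.single i 1 : Fin d → ℝ) := by
        funext j; simp [Finset.sum_apply, Pi.single_apply]
      obtain ⟨L, hL⟩ : ∃ L, L = fderiv ℝ g (x + s • (y - x)) := ⟨_, rfl⟩
      have hL' : ∀ i, |L (Pi.single i 1)| ≤ B := fun i => by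
        rw [hL, ← pt_eq (diffAt hU hg hx)]; exact hB i _ hx
      rw [← hL]
      calc ‖L (y - x)‖ = |∑ i, (y - x) i * L (Pi.single i 1)| := by
            conv_lhs => rw [e]
            simp only [map_sum, map_smul, smul_eq_mul, Real.norm_eq_abs]
        _ ≤ ∑ i, |(y - x) i * L (Pi.single i 1)| := Finset.abs_sum_le_sum_abs _ _
        _ ≤ ∑ _i : Fin d, B * ‖y - x‖ := Finset.sum_le_sum fun i _ => by
            rw [abs_mul, mul_comm]
            exact mul_le_mul (hL' i) (norm_le_pi_norm (y - x) i) (abs_nonneg _)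
              ((abs_nonneg _).trans (hL' i))
        _ = _ := by simp [mul_assoc])
  simpa using h

theorem cone_bound {U : Set (Fin d → ℝ)} (hU : IsOpen U) (hC : Cone U) (k : ℕ) :
    ∃ A δ0 : ℝ, 0 < A ∧ 0 < δ0 ∧ ∀ δ, 0 < δ → δ ≤ δ0 → ∀ f : (Fin d → ℝ) → ℝ,
      ContDiffOn ℝ k f U → (∀ w : List (Fin d), w.length = k → ∀ x ∈ U, |pd w f x| ≤ 1) →
      (∀ z : Fin d → ℤ, (fun i => δ * z i) ∈ U → f (fun i => δ * z i) = 0) →
      ∀ j (w : List (Fin d)), w.length + j = k → ∀ x ∈ U, |pd w f x| ≤ (A * δ) ^ j := by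
  obtain ⟨ρ, R, hρ, H⟩ := hC
  refine ⟨d * ((k + 1) / ρ * (|R| + ρ)) + 1, ρ / (k + 1), by positivity, by positivity,
    fun δ hδ hδ0 f hf htop h0 j => ?_⟩
  induction j with
  | zero => intro w hw x hx; simpa using htop w hw x hx
  | succ j ih =>
    intro w hw x hx
    obtain ⟨y, hy, hs⟩ := H x hx
    obtain ⟨t, ht⟩ : ∃ t, t = (k + 1) / ρ * δ := ⟨_, rfl⟩
    have ht0 : 0 < t := ht ▸ by positivity
    have ht1 : t ≤ 1 := by
      rw [ht, div_mul_eq_mul_div, div_le_one hρ]
      rw [le_div_iff₀ (by positivity)] at hδ0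
      linarith
    have htρ : t * ρ = (k + 1) * δ := by rw [ht]; field_simp
    let y' := x + t • (y - x)
    have hball : ∀ ξ, ‖ξ - y'‖ ≤ t * ρ → segment ℝ x ξ ⊆ U ∧ ‖ξ - x‖ ≤ t * (|R| + ρ) := by
      intro ξ hξ
      let u := y + t⁻¹ • (ξ - y')
      have hu : u ∈ Metric.closedBall y ρ := by
        rw [mem_closedBall_iff_norm]
        simp only [u, add_sub_cancel_left, norm_smul, norm_inv, Real.norm_eq_abs, abs_of_pos ht0]
        rw [inv_mul_le_iff₀ ht0]; exact hξ
      have e : ξ = x + t • (u - x) := by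
        funext i
        simp only [u, y', Pi.add_apply, Pi.smul_apply, Pi.sub_apply, smul_eq_mul]
        field_simp
        ring
      refine ⟨subset_trans ?_ (hs u hu), ?_⟩
      · refine (convex_segment x u).segment_subset (left_mem_segment _ _ _) ?_
        rw [segment_eq_image']; exact ⟨t, ⟨ht0.le, ht1⟩, e.symm⟩
      · have e2 : ξ - x = (ξ - y') + t • (y - x) := by simp only [y']; abel
        rw [e2]
        refine (norm_add_le _ _).trans ?_
        rw [norm_smul, Real.norm_eq_abs, abs_of_pos ht0, ← dist_eq_norm y x]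
        have := mul_le_mul_of_nonneg_left (hy.trans (le_abs_self R)) ht0.le
        linarith
    have hbox : ∀ ξ ∈ Icc (fun i => δ * (⌊y' i / δ⌋ : ℤ))
        (fun i => δ * (⌊y' i / δ⌋ : ℤ) + w.length * δ), ‖ξ - y'‖ ≤ t * ρ := by
      intro ξ hξ
      refine (pi_norm_le_iff_of_nonneg (by positivity)).2 fun i => ?_
      have a1 := hξ.1 i
      have a2 := hξ.2 i
      have a3 := Int.floor_le (y' i / δ)
      have a4 := Int.lt_floor_add_one (y' i / δ)
      rw [le_div_iff₀ hδ] at a3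
      rw [div_lt_iff₀ hδ] at a4
      have a5 : (w.length : ℝ) ≤ k := by exact_mod_cast (by omega : w.length ≤ k)
      have a6 := mul_le_mul_of_nonneg_right a5 hδ.le
      have a7 : (0:ℝ) ≤ k * δ := by positivity
      rw [htρ, Real.norm_eq_abs, Pi.sub_apply, abs_le]
      simp only at a1 a2
      constructor <;> nlinarith
    obtain ⟨ξ, hξ, hz⟩ := exists_zero hδ (fun i => ⌊y' i / δ⌋) w U f hU (cd_mono hf (by omega)) h0
      fun ξ hξ => (hball ξ (hbox ξ hξ)).1 (right_mem_segment _ _ _)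
    have hb := seg_bound hU (g := pd w f) (cd_pd hU w (cd_mono hf (by omega)))
      (B := ((d * ((k + 1) / ρ * (|R| + ρ)) + 1) * δ) ^ j)
      (fun i x hx => by rw [← pd_snoc]; exact ih _ (by simp; omega) x hx) (hball ξ (hbox ξ hξ)).1
    rw [hz, zero_sub, abs_neg] at hb
    refine hb.trans ?_
    rw [pow_succ, mul_comm (d:ℝ), mul_assoc]
    refine mul_le_mul_of_nonneg_left ?_ (by positivity)
    have := mul_le_mul_of_nonneg_left (hball ξ (hbox ξ hξ)).2 (Nat.cast_nonneg (α := ℝ) d)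
    rw [ht] at this
    nlinarith

theorem leibniz (m : ℕ) : ∀ χ : (Fin d → ℝ) → ℝ, (∀ n : ℕ, ContDiff ℝ n χ) → HasCompactSupport χ →
    ∃ C : ℝ, 0 ≤ C ∧ ∀ w : List (Fin d), w.length ≤ m → ∀ (U : Set (Fin d → ℝ))
      (f : (Fin d → ℝ) → ℝ) (B : ℝ), IsOpen U → ContDiffOn ℝ w.length f U → 0 ≤ B →
      (∀ v : List (Fin d), v.length < w.length → ∀ x ∈ U, |pd v f x| ≤ B) →
      ∀ x ∈ U, |pd w (fun y => χ y * f y) x - χ x * pd w f x| ≤ C * B := by
  induction m with
  | zero =>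
    intro χ _ _
    refine ⟨0, le_rfl, fun w hw U f B _ _ _ _ x _ => ?_⟩
    have : w = [] := List.length_eq_zero_iff.1 (by omega)
    subst this; simp [pd_nil]
  | succ m ih =>
    intro χ h1 h2
    have g1 : ∀ i (n : ℕ), ContDiff ℝ n (pt i χ) := fun i n =>
      contDiffOn_univ.1 (cd_pt isOpen_univ (h1 (n + 1)).contDiffOn i)
    have g2 : ∀ i, HasCompactSupport (pt i χ) := fun i => by
      have e : pt i χ = fun x => fderiv ℝ χ x (Pi.single i 1) :=
        funext fun x => pt_eq (diffAt isOpen_univ (h1 (0 + 1)).contDiffOn (mem_univ x)) i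
      rw [e]; exact h2.fderiv_apply ℝ _
    obtain ⟨C0, hC0, H0⟩ := ih χ h1 h2
    choose C hC H using fun i => ih (pt i χ) (g1 i) (g2 i)
    choose K hK using fun i => (g1 i 0).continuous.bounded_above_of_compact_support (g2 i)
    have hK0 : ∀ i, 0 ≤ K i := fun i => (norm_nonneg _).trans (hK i 0)
    have hs : ∀ i, K i + C i ≤ ∑ i, (K i + C i) := fun i =>
      Finset.single_le_sum (f := fun i => K i + C i) (fun i _ => add_nonneg (hK0 i) (hC i))
        (Finset.mem_univ i)
    have hs0 : 0 ≤ ∑ i, (K i + C i) := Finset.sum_nonneg fun i _ => add_nonneg (hK0 i) (hC i)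
    refine ⟨C0 + ∑ i, (K i + C i), add_nonneg hC0 hs0, fun w hw U f B hU hf hB hv x hx => ?_⟩
    rcases w with _ | ⟨i, w⟩
    · simp only [pd_nil, sub_self, abs_zero]; positivity
    rw [List.length_cons] at hw hf hv
    have hf1 : ContDiffOn ℝ w.length f U := cd_mono hf (Nat.le_succ _)
    have hf2 : ContDiffOn ℝ w.length (pt i f) U := cd_pt hU hf i
    have e : EqOn (pt i fun y => χ y * f y)
        (fun y => 1 * (pt i χ y * f y) + 1 * (χ y * pt i f y)) U := by
      intro y hy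
      have d1 := diffAt isOpen_univ (h1 (0 + 1)).contDiffOn (mem_univ y)
      have d2 := diffAt hU hf hy
      have d3 := d1.hasFDerivAt.fun_mul d2.hasFDerivAt
      beta_reduce
      rw [pt_eq d3.differentiableAt, d3.fderiv, pt_eq d1, pt_eq d2]
      simp only [_root_.add_apply, _root_.smul_apply, smul_eq_mul]
      ring
    rw [pd_cons, pd_cons, pd_congr hU w e hx, pd_lin hU _ _ w ((g1 i _).contDiffOn.mul hf1)
      ((h1 _).contDiffOn.mul hf2) hx]
    have a1 := H0 w (by omega) U (pt i f) B hU hf2 hB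
      (fun v hv' y hy => hv (i :: v) (by simp; omega) y hy) x hx
    have a2 := H i w (by omega) U f B hU hf1 hB (fun v hv' y hy => hv v (by omega) y hy) x hx
    have a3 : |pt i χ x * pd w f x| ≤ K i * B := by
      rw [abs_mul]
      exact mul_le_mul (hK i x) (hv w (by omega) x hx) (abs_nonneg _) (hK0 i)
    have a4 := mul_le_mul_of_nonneg_right (hs i) hB
    rw [abs_le] at a1 a2 a3 ⊢
    constructor <;> nlinarith [a1.1, a1.2, a2.1, a2.2, a3.1, a3.2]

end Pool.Agent.H.MP_935800_an
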