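import Pool.Agent.H.MP_935800_an.A

set_option autoImplicit false

namespace Pool.Agent.H.MP_935800_an

open Set Filter Topology MeasureTheory Metric

variable {d : ℕ}

def gp (h : ℝ) (z : Fin d → ℤ) : Fin d → ℝ := fun i => h * z i

def cube (h : ℝ) (z : Fin d → ℤ) : Set (Fin d → ℝ) := ball (gp h z) (h / 2)

lemma cube_disj {h : ℝ} (hh : 0 < h) {z z' : Fin d → ℤ} (hz : z ≠ z') :
    Disjoint (cube h z) (cube h z') := by
  refine ball_disjoint_ball ?_
  obtain ⟨i, hi⟩ := Function.ne_iff.1 hz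
  refine le_trans ?_ (dist_le_pi_dist _ _ i)
  rw [Real.dist_eq, gp, gp, ← mul_sub, abs_mul, abs_of_pos hh]
  have : (1:ℝ) ≤ |(z i : ℝ) - z' i| := by
    have := Int.one_le_abs (sub_ne_zero.2 hi)
    exact_mod_cast this
  nlinarith

lemma vol_ball (a : Fin d → ℝ) {r : ℝ} (hr : 0 < r) : volume.real (ball a r) = (2 * r) ^ d := by
  rw [measureReal_def, Real.volume_pi_ball a hr, Fintype.card_fin, ENNReal.toReal_ofReal (by positivity)]

lemma vol_union {h : ℝ} (hh : 0 < h) (Z : Finset (Fin d → ℤ)) :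
    volume.real (⋃ z ∈ Z, cube h z) = Z.card * h ^ d := by
  rw [measureReal_biUnion_finset (fun z _ z' _ hz => cube_disj hh hz)
    (fun z _ => measurableSet_ball) (fun z _ => measure_ball_lt_top.ne)]
  rw [Finset.sum_congr rfl (g := fun _ => h ^ d) fun z _ => by
    rw [cube, vol_ball _ (by positivity)]; congr 1; ring]
  simp

lemma grid_finite {U : Set (Fin d → ℝ)} (hU : Bornology.IsBounded U) {h : ℝ} (hh : 0 < h) :
    {z : Fin d → ℤ | gp h z ∈ U}.Finite := by
  obtain ⟨R, hR⟩ := hU.exists_norm_le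
  refine (Set.finite_Icc (fun _ => -⌈R / h⌉) (fun _ => ⌈R / h⌉)).subset fun z hz => ?_
  have h1 : ∀ i, |(z i : ℝ)| ≤ ⌈R / h⌉ := fun i => by
    have := (norm_le_pi_norm _ i).trans (hR _ hz)
    rw [Real.norm_eq_abs, gp, abs_mul, abs_of_pos hh] at this
    refine le_trans ?_ (Int.le_ceil _)
    rw [le_div_iff₀ hh]; linarith
  constructor
  · intro i; have := (abs_le.1 (h1 i)).1; exact_mod_cast this
  · intro i; have := (abs_le.1 (h1 i)).2; exact_mod_cast this

lemma grid {U : Set (Fin d → ℝ)} (hU : Bornology.IsBounded U) : ∃ C : ℝ, 0 < C ∧ ∀ δ, 0 < δ → δ ≤ 1 →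
    ∃ T : Finset (Fin d → ℝ), (∀ p ∈ T, p ∈ U) ∧ (∀ z, gp δ z ∈ U → gp δ z ∈ T) ∧
      T.card * δ ^ d ≤ C := by
  classical
  obtain ⟨R, hR0, hR⟩ := hU.exists_pos_norm_le
  refine ⟨(2 * (R + 1)) ^ d, by positivity, fun δ hδ hδ1 => ?_⟩
  refine ⟨(grid_finite hU hδ).toFinset.image (gp δ), ?_, ?_, ?_⟩
  · intro p hp
    obtain ⟨z, hz, rfl⟩ := Finset.mem_image.1 hp
    simpa using hz
  · intro z hz
    exact Finset.mem_image_of_mem _ (by simpa using hz)
  · have h1 : (((grid_finite hU hδ).toFinset.image (gp δ)).card : ℝ)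
        ≤ (grid_finite hU hδ).toFinset.card := by exact_mod_cast Finset.card_image_le
    refine (mul_le_mul_of_nonneg_right h1 (by positivity)).trans ?_
    rw [← vol_union hδ, ← vol_ball 0 (by positivity)]
    refine measureReal_mono ?_ measure_ball_lt_top.ne
    refine iUnion₂_subset fun z hz => ball_subset_ball' ?_
    rw [dist_zero_right]
    have := hR _ (by simpa using hz : gp δ z ∈ U)
    linarith

lemma tiling (hd : 0 < d) {D : Set (Fin d → ℝ)} (hD : Bornology.IsBounded D)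
    (hF : volume (frontier D) = 0) {η : ℝ} (hη : 0 < η) : ∃ h0 : ℝ, 0 < h0 ∧ ∀ h, 0 < h → h ≤ h0 →
    ∃ Z : Finset (Fin d → ℤ), (∀ z ∈ Z, cube h z ⊆ interior D) ∧
      volume.real (interior D \ ⋃ z ∈ Z, cube h z) ≤ η := by
  classical
  haveI : Nonempty (Fin d) := ⟨⟨0, hd⟩⟩
  have hc : IsCompact (frontier D) := isCompact_of_isClosed_isBounded isClosed_frontier
    (hD.closure.subset frontier_subset_closure)
  have ht := tendsto_measure_cthickening_of_isCompact (μ := volume) hc
  rw [hF] at ht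
  obtain ⟨ε, hε, H⟩ := Metric.eventually_nhds_iff.1
    (ht.eventually (gt_mem_nhds (ENNReal.ofReal_pos.2 hη)))
  refine ⟨ε / 2, by positivity, fun h hh hh0 => ?_⟩
  have hfin : {z : Fin d → ℤ | cube h z ⊆ interior D}.Finite :=
    (grid_finite (hD.subset interior_subset) hh).subset fun z hz =>
      hz (mem_ball_self (by positivity))
  refine ⟨hfin.toFinset, fun z hz => by simpa using hz, ?_⟩
  have hsub : interior D \ (⋃ z ∈ hfin.toFinset, cube h z) ⊆
      cthickening h (frontier D) ∪ ⋃ z : Fin d → ℤ, sphere (gp h z) (h / 2) := by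
    intro x hx
    let z : Fin d → ℤ := fun i => round (x i / h)
    have hz : dist x (gp h z) ≤ h / 2 := by
      refine (dist_pi_le_iff (by positivity)).2 fun i => ?_
      have := abs_sub_round (x i / h)
      have e : x i - gp h z i = h * (x i / h - round (x i / h)) := by
        simp only [gp, z]; field_simp
      rw [Real.dist_eq, e, abs_mul, abs_of_pos hh]
      nlinarith
    rcases hz.eq_or_lt with h1 | h1
    · exact Or.inr (mem_iUnion.2 ⟨z, h1⟩)
    left
    by_contra hn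
    refine hx.2 (mem_iUnion₂.2 ⟨z, ?_, h1⟩)
    simp only [Finite.mem_toFinset, mem_ofPred_eq]
    have hnf : ∀ y ∈ cube h z, y ∉ frontier D := by
      intro y hy hyf
      refine hn (mem_cthickening_of_dist_le x y h _ hyf ?_)
      have := dist_triangle_right x y (gp h z)
      have : dist y (gp h z) < h / 2 := hy
      linarith
    refine (convex_ball _ _).isPreconnected.subset_left_of_subset_union isOpen_interior
      isClosed_closure.isOpen_compl (v := (closure D)ᶜ) ?_ ?_ ⟨x, h1, hx.1⟩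
    · exact disjoint_compl_right.mono_left (interior_subset.trans subset_closure)
    · intro y hy
      by_cases hc : y ∈ closure D
      · left
        by_contra hi
        exact hnf y hy ⟨hc, hi⟩
      · exact Or.inr hc
  have h2 : volume (interior D \ ⋃ z ∈ hfin.toFinset, cube h z) ≤ ENNReal.ofReal η := by
    refine (measure_mono hsub).trans ((measure_union_le _ _).trans ?_)
    rw [measure_iUnion_null fun z => Measure.addHaar_sphere _ _ _, add_zero]
    refine (H ?_).le
    rw [dist_zero_right, Real.norm_eq_abs, abs_of_pos hh]; linarith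
  exact ENNReal.toReal_le_of_le_ofReal hη.le h2

lemma int_scale {h : ℝ} (hh : 0 < h) (b : Fin d → ℝ) (f : (Fin d → ℝ) → ℝ) :
    ∫ x in ball b (h / 2), f x = h ^ d * ∫ y in ball (0 : Fin d → ℝ) (1 / 2), f (h • y + b) := by
  have h1 := (measurePreserving_add_right (volume : Measure (Fin d → ℝ)) b).setIntegral_preimage_emb
    (measurableEmbedding_addRight b) f (ball b (h / 2))
  have h2 := Measure.setIntegral_comp_smul_of_pos volume (fun y => f (y + b))
    (ball (0 : Fin d → ℝ) (1 / 2)) hh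
  rw [_root_.smul_ball hh.ne', smul_zero, Real.norm_eq_abs, abs_of_pos hh, Module.finrank_fin_fun]
    at h2
  have e : (fun x => x + b) ⁻¹' ball b (h / 2) = ball 0 (h * (1 / 2)) := by
    ext x; simp [dist_eq_norm, div_eq_mul_inv]
  rw [h2, ← h1, e, smul_eq_mul, ← mul_assoc, mul_inv_cancel₀ (by positivity), one_mul]

lemma mem_scale {h : ℝ} (hh : 0 < h) (b y : Fin d → ℝ) :
    h • y + b ∈ ball b (h / 2) ↔ y ∈ ball (0 : Fin d → ℝ) (1 / 2) := by
  rw [mem_ball_iff_norm, mem_ball_zero_iff, add_sub_cancel_right, norm_smul, Real.norm_eq_abs,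
    abs_of_pos hh]
  constructor <;> intro h1 <;> nlinarith

lemma cone_ball : Cone (ball (0 : Fin d → ℝ) (1 / 2)) := by
  refine ⟨1 / 4, 1, by norm_num, fun x hx => ⟨0, ?_, fun u hu => ?_⟩⟩
  · rw [dist_comm]; have : dist x 0 < 1 / 2 := hx; linarith
  · exact (convex_ball _ _).segment_subset hx (closedBall_subset_ball (by norm_num) hu)

lemma int_bdd {U : Set (Fin d → ℝ)} (hU : IsOpen U) (hb : Bornology.IsBounded U)
    {f : (Fin d → ℝ) → ℝ} (hf : ContinuousOn f U) {B : ℝ} (hB : ∀ x ∈ U, |f x| ≤ B) :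
    IntegrableOn f U :=
  IntegrableOn.of_bound hb.measure_lt_top (hf.aestronglyMeasurable hU.measurableSet) B
    ((ae_restrict_mem hU.measurableSet).mono hB)

lemma int_interior {D : Set (Fin d → ℝ)} (hF : volume (frontier D) = 0) (f : (Fin d → ℝ) → ℝ) :
    ∫ x in D, f x = ∫ x in interior D, f x :=
  (setIntegral_congr_set (interior_ae_eq_of_null_frontier hF)).symm

lemma le_err {D : Set (Fin d → ℝ)} {k n : ℕ} {r : ℝ}
    (H : ∀ T : Finset (Fin d → ℝ), T.card ≤ n → ∃ f ∈ FF k D, (∀ p ∈ T, f p = 0) ∧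
      r ≤ ∫ x in D, f x) : ENNReal.ofReal r ≤ err k n D := by
  classical
  refine le_iInf fun x => le_iInf fun φ => ?_
  obtain ⟨f, hf, h0, hr⟩ := H (Finset.univ.image fun i => (x i : Fin d → ℝ))
    (Finset.card_image_le.trans (by simp))
  have hx : ∀ i, f (x i) = 0 := fun i => h0 _ (Finset.mem_image_of_mem _ (Finset.mem_univ i))
  have hg : (fun y => -1 * f ((1:ℝ) • y + 0)) ∈ FF k D := by
    refine ⟨?_, ?_, ?_⟩
    · simpa using hf.1.neg
    · simpa using hf.2.1
    · intro w hw y hy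
      rw [pd_aff]; simpa using hf.2.2 w hw y hy
  by_cases hφ : φ (fun _ => 0) ≤ 0
  · refine le_iSup₂_of_le f hf (ENNReal.ofReal_le_ofReal ?_)
    simp only [hx]
    exact le_trans (by linarith) (le_abs_self _)
  · refine le_iSup₂_of_le _ hg (ENNReal.ofReal_le_ofReal ?_)
    simp only [one_smul, add_zero, hx, mul_zero, integral_const_mul]
    exact le_trans (by linarith) (neg_le_abs _)

lemma err_le {D : Set (Fin d → ℝ)} (hD : Adm D) {k n : ℕ} {r : ℝ} (T : Finset (Fin d → ℝ))
    (hT : T.card ≤ n) (hTD : ∀ p ∈ T, p ∈ D)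
    (H : ∀ f ∈ FF k D, (∀ p ∈ T, f p = 0) → ∫ x in D, f x ≤ r) : err k n D ≤ ENNReal.ofReal r := by
  classical
  obtain ⟨p0, hp0⟩ : D.Nonempty := nonempty_of_measure_ne_zero (by rw [hD.2.2]; exact one_ne_zero)
  obtain ⟨x, hx⟩ : ∃ x : Fin n → D, ∀ p ∈ T, ∃ i, (x i : Fin d → ℝ) = p := by
    refine ⟨fun i => if h : i.1 < T.card then ⟨T.equivFin.symm ⟨i.1, h⟩, hTD _ (Subtype.prop _)⟩
      else ⟨p0, hp0⟩, fun p hp => ⟨⟨T.equivFin ⟨p, hp⟩, (Fin.is_lt _).trans_le hT⟩, ?_⟩⟩
    simp
  have hI : ∀ f ∈ FF k D, IntegrableOn f (interior D) := fun f hf =>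
    int_bdd isOpen_interior (hD.1.subset interior_subset) hf.1.continuousOn
      fun x hx => hf.2.1 x (interior_subset hx)
  have key : ∀ f ∈ FF k D, ∀ g ∈ FF k D, (fun i => f (x i)) = (fun i => g (x i)) →
      (∫ y in D, f y) - r ≤ (∫ y in D, g y) + r := by
    intro f hf g hg e
    have := H (fun y => 1 / 2 * f y + (-1 / 2) * g y) ⟨(contDiffOn_const.mul hf.1).add
      (contDiffOn_const.mul hg.1), fun y hy => ?_, fun w hw y hy => ?_⟩ fun p hp => ?_
    · rw [int_interior hD.2.1, integral_add ((hI f hf).const_mul _) ((hI g hg).const_mul _),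
        integral_const_mul, integral_const_mul, ← int_interior hD.2.1, ← int_interior hD.2.1] at this
      linarith
    · have a1 := abs_le.1 (hf.2.1 y hy)
      have a2 := abs_le.1 (hg.2.1 y hy)
      rw [abs_le]; constructor <;> linarith [a1.1, a1.2, a2.1, a2.2]
    · rw [pd_lin isOpen_interior _ _ w (cd_mono hf.1 hw) (cd_mono hg.1 hw) hy]
      have a1 := abs_le.1 (hf.2.2 w hw y hy)
      have a2 := abs_le.1 (hg.2.2 w hw y hy)
      rw [abs_le]; constructor <;> linarith [a1.1, a1.2, a2.1, a2.2]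
    · obtain ⟨i, rfl⟩ := hx p hp
      have : f (x i) = g (x i) := congrFun e i
      rw [this]; ring
  refine iInf_le_of_le x (iInf_le_of_le (fun v => sSup {s | ∃ g ∈ FF k D,
    (fun i => g (x i)) = v ∧ s = (∫ y in D, g y) - r}) ?_)
  refine iSup₂_le fun f hf => ENNReal.ofReal_le_ofReal ?_
  have hub : ∀ s ∈ {s | ∃ g ∈ FF k D, (fun i => g (x i)) = (fun i => f (x i)) ∧
      s = (∫ y in D, g y) - r}, s ≤ (∫ y in D, f y) + r := by
    rintro s ⟨g, hg, e, rfl⟩
    exact key g hg f hf e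
  have hm : (∫ y in D, f y) - r ∈ {s | ∃ g ∈ FF k D, (fun i => g (x i)) = (fun i => f (x i)) ∧
      s = (∫ y in D, g y) - r} := ⟨f, hf, rfl, rfl⟩
  have a1 := csSup_le ⟨_, hm⟩ hub
  have a2 := le_csSup ⟨_, hub⟩ hm
  beta_reduce
  rw [abs_le]; constructor <;> linarith

end Pool.Agent.H.MP_935800_an
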