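import Pool.Agent.H.MP_935800_an.B

set_option autoImplicit false

namespace Pool.Agent.H.MP_935800_an

open Set Filter Topology MeasureTheory Metric

variable {d : ℕ}

def GG (d k : ℕ) : Set ((Fin d → ℝ) → ℝ) :=
  {f | ContDiffOn ℝ k f (ball 0 (1 / 2)) ∧ (∃ B, ∀ x ∈ ball (0 : Fin d → ℝ) (1 / 2), |f x| ≤ B) ∧
    ∀ w : List (Fin d), w.length = k → ∀ x ∈ ball (0 : Fin d → ℝ) (1 / 2), |pd w f x| ≤ 1}

def SS (d k : ℕ) : Set ℝ :=
  {v | ∃ (T : Finset (Fin d → ℝ)) (r : ℝ), (∀ p ∈ T, p ∈ ball (0 : Fin d → ℝ) (1 / 2)) ∧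
    (∀ f ∈ GG d k, (∀ p ∈ T, f p = 0) → ∫ x in ball 0 (1 / 2), f x ≤ r) ∧
    v = (T.card : ℝ) ^ ((k : ℝ) / d) * r}

lemma pd_zero (w : List (Fin d)) (x : Fin d → ℝ) : pd w (fun _ => 0) x = 0 := by
  have := congrFun (pd_aff 1 0 w 0 (fun _ => 0)) x
  simpa using this

lemma zero_GG (k : ℕ) : (fun _ => 0) ∈ GG d k :=
  ⟨contDiffOn_const, ⟨0, by simp⟩, fun w _ x _ => by simp [pd_zero]⟩

lemma r_nonneg {k : ℕ} {T : Finset (Fin d → ℝ)} {r : ℝ}
    (H : ∀ f ∈ GG d k, (∀ p ∈ T, f p = 0) → ∫ x in ball 0 (1 / 2), f x ≤ r) : 0 ≤ r := by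
  simpa using H _ (zero_GG k) fun _ _ => rfl

lemma int_le {U : Set (Fin d → ℝ)} (hU : volume U < ⊤) {f : (Fin d → ℝ) → ℝ} {B : ℝ}
    (h : ∀ x ∈ U, |f x| ≤ B) : |∫ x in U, f x| ≤ B * volume.real U :=
  norm_setIntegral_le_of_norm_le_const (f := f) hU h

lemma SS_ne (k : ℕ) : (SS d k).Nonempty := by
  obtain ⟨A, δ0, hA, hδ0, H⟩ := cone_bound (d := d) isOpen_ball cone_ball k
  obtain ⟨C, -, H2⟩ := grid (isBounded_ball (x := (0 : Fin d → ℝ)) (r := 1 / 2))
  obtain ⟨T, h1, h2, -⟩ := H2 (min δ0 1) (by positivity) (min_le_right _ _)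
  refine ⟨_, T, (A * min δ0 1) ^ k * volume.real (ball (0 : Fin d → ℝ) (1 / 2)), h1,
    fun f hf h0 => ?_, rfl⟩
  exact (le_abs_self _).trans (int_le measure_ball_lt_top
    (H _ (by positivity) (min_le_left _ _) f hf.1 hf.2.2 (fun z hz => h0 _ (h2 z hz)) k []
      (by simp)))

lemma SS_nonneg {k : ℕ} {v : ℝ} (hv : v ∈ SS d k) : 0 ≤ v := by
  obtain ⟨T, r, -, h, rfl⟩ := hv
  have := r_nonneg h
  positivity

lemma small (hd : 0 < d) (K : ℝ) {ε : ℝ} (hε : 0 < ε) :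
    ∀ᶠ n : ℕ in atTop, (K / n) ^ ((d : ℝ)⁻¹) ≤ ε := by
  have h1 := tendsto_const_div_atTop_nhds_zero_nat K
  have hd' : (0:ℝ) < (d : ℝ)⁻¹ := by positivity
  have h2 := ((Real.continuous_rpow_const hd'.le).tendsto 0).comp h1
  rw [Real.zero_rpow hd'.ne'] at h2
  exact (h2.eventually (gt_mem_nhds hε)).mono fun n hn => le_of_lt hn

lemma root_pow (hd : 0 < d) {a : ℝ} (ha : 0 ≤ a) (k : ℕ) :
    (a ^ ((d : ℝ)⁻¹)) ^ d = a ∧ (a ^ ((d : ℝ)⁻¹)) ^ k = a ^ ((k : ℝ) / d) := by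
  refine ⟨Real.rpow_inv_natCast_pow ha hd.ne', ?_⟩
  rw [← Real.rpow_natCast, ← Real.rpow_mul ha]; congr 1; ring

lemma exists_pos_of_cont {F : ℝ → ℝ} (hF : ContinuousAt F 0) (h : 0 < F 0) :
    ∃ β, 0 < β ∧ β < 1 ∧ 0 < F β := by
  have hev : ∀ᶠ δ in nhds (0:ℝ), 0 < F δ := hF.eventually (lt_mem_nhds h)
  have hev2 : ∀ᶠ δ in nhds (0:ℝ), δ < 1 := gt_mem_nhds one_pos
  obtain ⟨δ, ⟨h1, h2⟩, h3⟩ := (((hev.and hev2).filter_mono nhdsWithin_le_nhds).and
    (self_mem_nhdsWithin (s := Set.Ioi (0:ℝ)))).exists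
  exact ⟨δ, h3, h2, h1⟩

lemma vol_interior {D : Set (Fin d → ℝ)} (hD : Adm D) : volume.real (interior D) = 1 := by
  rw [measureReal_def, measure_congr (interior_ae_eq_of_null_frontier hD.2.1), hD.2.2]; rfl

theorem upper (hd : 0 < d) {k : ℕ} {D : Set (Fin d → ℝ)} (hD : Adm D) (hC : Cone (interior D))
    {c : ℝ} (hc : sInf (SS d k) < c) :
    ∀ᶠ n : ℕ in atTop, err k n D ≤ ENNReal.ofReal (c / (n : ℝ) ^ ((k : ℝ) / d)) := by
  classical
  obtain ⟨v, ⟨T0, r, hT0, Hr, rfl⟩, hv⟩ := exists_lt_of_csInf_lt (SS_ne k) hc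
  have hr := r_nonneg Hr
  have hs : (0:ℝ) ≤ (k : ℝ) / d := by positivity
  obtain ⟨β, hβ, -, hβc⟩ := exists_pos_of_cont
    (F := fun β => c - ((T0.card : ℝ) + β) ^ ((k : ℝ) / d) * (r + β))
    (Continuous.continuousAt (continuous_const.sub
      (((Real.continuous_rpow_const hs).comp (by fun_prop)).mul (by fun_prop))))
    (by simpa using hv)
  have hUb : Bornology.IsBounded (interior D) := hD.1.subset interior_subset
  obtain ⟨A, δ0, hA, hδ0, H⟩ := cone_bound isOpen_interior hC k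
  obtain ⟨C, hC0, HG⟩ := grid hUb
  obtain ⟨L, hL⟩ : ∃ L, L = max 1 (C / β) := ⟨_, rfl⟩
  have hL1 : 1 ≤ L := hL ▸ le_max_left _ _
  have hL0 : 0 < L := by linarith
  have hLd : C ≤ β * L ^ d := by
    have h1 : C / β ≤ L := hL ▸ le_max_right _ _
    have h2 : L ≤ L ^ d := le_self_pow₀ hL1 hd.ne'
    rw [div_le_iff₀ hβ] at h1
    nlinarith
  obtain ⟨h0, hh0, HT⟩ := tiling hd hD.1 hD.2.1 (η := β / (A * L) ^ k) (by positivity)
  filter_upwards [small hd (T0.card + β) hh0, small hd (T0.card + β) (div_pos hδ0 hL0),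
    small hd (T0.card + β) (div_pos one_pos hL0), eventually_gt_atTop 0] with n e1 e2 e3 hn
  have hn' : (0:ℝ) < n := by exact_mod_cast hn
  have hK : (0:ℝ) < T0.card + β := by positivity
  obtain ⟨p1, p2⟩ := root_pow hd (div_pos hK hn').le k
  have hh := Real.rpow_pos_of_pos (div_pos hK hn') ((d : ℝ)⁻¹)
  obtain ⟨h, hh'⟩ : ∃ h, h = (((T0.card : ℝ) + β) / n) ^ ((d : ℝ)⁻¹) := ⟨_, rfl⟩
  rw [← hh'] at e1 e2 e3 p1 p2 hh
  rw [le_div_iff₀ hL0] at e2 e3
  obtain ⟨Z, hZ, hZv⟩ := HT h hh e1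
  obtain ⟨T1, hT1, hT1', hT1c⟩ := HG (h * L) (by positivity) e3
  have hsub : (⋃ z ∈ Z, cube h z) ⊆ interior D := iUnion₂_subset hZ
  have hM : Z.card * h ^ d ≤ 1 := by
    rw [← vol_union hh, ← vol_interior hD]
    exact measureReal_mono hsub hUb.measure_lt_top.ne
  refine err_le hD (T1 ∪ Z.biUnion fun z => T0.image fun p => h • p + gp h z) ?_ ?_ ?_
  · have c1 : ((T1 ∪ Z.biUnion fun z => T0.image fun p => h • p + gp h z).card : ℝ)
        ≤ T1.card + Z.card * T0.card := by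
      have := (Finset.card_union_le T1 (Z.biUnion fun z => T0.image fun p => h • p + gp h z)).trans
        (Nat.add_le_add_left (Finset.card_biUnion_le_card_mul Z _ T0.card
          fun z _ => Finset.card_image_le) _)
      exact_mod_cast this
    have hp : 0 < h ^ d := by positivity
    have c2 : (T1.card : ℝ) * h ^ d ≤ β := by
      refine le_of_mul_le_mul_right ?_ (pow_pos hL0 d)
      rw [mul_pow] at hT1c
      nlinarith
    have c3 : ((T1.card : ℝ) + Z.card * T0.card) * h ^ d ≤ n * h ^ d := by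
      have : (n : ℝ) * h ^ d = T0.card + β := by rw [p1]; field_simp
      have := mul_le_mul_of_nonneg_right hM (Nat.cast_nonneg (α := ℝ) T0.card)
      nlinarith
    exact_mod_cast c1.trans (le_of_mul_le_mul_right c3 hp)
  · intro p hp
    refine interior_subset ?_
    rcases Finset.mem_union.1 hp with hp | hp
    · exact hT1 p hp
    · obtain ⟨z, hz, hp⟩ := Finset.mem_biUnion.1 hp
      obtain ⟨q, hq, rfl⟩ := Finset.mem_image.1 hp
      exact hZ z hz ((mem_scale hh _ _).2 (hT0 q hq))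
  intro f hf hz
  have hI : IntegrableOn f (interior D) := int_bdd isOpen_interior hUb hf.1.continuousOn
    fun x hx => hf.2.1 x (interior_subset hx)
  have hmeas : MeasurableSet (⋃ z ∈ Z, cube h z) :=
    Finset.measurableSet_biUnion _ fun z _ => measurableSet_ball
  have hb := H (h * L) (by positivity) e2 f hf.1 (fun w hw => hf.2.2 w hw.le)
    (fun z hz' => hz _ (Finset.mem_union_left _ (hT1' z hz'))) k [] (by simp)
  have i1 : ∫ x in interior D \ ⋃ z ∈ Z, cube h z, f x ≤ h ^ k * β := by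
    refine (le_abs_self _).trans ((int_le ((measure_mono sdiff_subset).trans_lt hUb.measure_lt_top)
      fun x hx => hb x hx.1).trans ?_)
    refine (mul_le_mul_of_nonneg_left hZv (by positivity)).trans (le_of_eq ?_)
    rw [mul_comm h L, ← mul_assoc, mul_pow (A * L)]; field_simp
  have i2 : ∀ z ∈ Z, ∫ x in cube h z, f x ≤ h ^ d * (h ^ k * r) := by
    intro z hz'
    have hm : ∀ y ∈ ball (0 : Fin d → ℝ) (1 / 2), h • y + gp h z ∈ interior D := fun y hy =>
      hZ z hz' ((mem_scale hh _ _).2 hy)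
    have hp : 0 < h ^ k := by positivity
    have := Hr (fun y => (h ^ k)⁻¹ * f (h • y + gp h z))
      ⟨contDiffOn_const.mul (hf.1.comp (by fun_prop) hm), ⟨(h ^ k)⁻¹ * 1, fun y hy => by
        rw [abs_mul, abs_of_pos (inv_pos.2 hp)]
        exact mul_le_mul_of_nonneg_left (hf.2.1 _ (interior_subset (hm y hy))) (by positivity)⟩,
        fun w hw y hy => by
          rw [pd_aff, hw, inv_mul_cancel₀ hp.ne']
          beta_reduce
          rw [one_mul]
          exact hf.2.2 w hw.le _ (hm y hy)⟩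
      (fun p hp => by
        rw [hz _ (Finset.mem_union_right _ (Finset.mem_biUnion.2
          ⟨z, hz', Finset.mem_image_of_mem _ hp⟩)), mul_zero])
    rw [integral_const_mul, inv_mul_le_iff₀ hp] at this
    rw [cube, int_scale hh]
    exact mul_le_mul_of_nonneg_left this (by positivity)
  have i3 : ∫ x in ⋃ z ∈ Z, cube h z, f x ≤ h ^ k * r := by
    rw [integral_biUnion_finset (s := cube h) _ (fun z _ => measurableSet_ball)
      (fun z _ z' _ hz => cube_disj hh hz) (fun z hz' => hI.mono_set (hZ z hz'))]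
    refine (Finset.sum_le_sum i2).trans ?_
    rw [Finset.sum_const, nsmul_eq_mul, ← mul_assoc]
    exact mul_le_of_le_one_left (by positivity) hM
  rw [int_interior hD.2.1, ← integral_inter_add_diff hmeas hI, inter_eq_right.2 hsub]
  refine (add_le_add i3 i1).trans ?_
  rw [← mul_add, p2, Real.div_rpow hK.le hn'.le, div_mul_eq_mul_div]
  exact div_le_div_of_nonneg_right (by linarith) (by positivity)

end Pool.Agent.H.MP_935800_an
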