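import Pool.Agent.H.MP_935800_an.C

set_option autoImplicit false

namespace Pool.Agent.H.MP_935800_an

open Set Filter Topology MeasureTheory Metric

variable {d : ℕ}

lemma pd_cmul (c : ℝ) (w : List (Fin d)) (g : (Fin d → ℝ) → ℝ) (x : Fin d → ℝ) :
    pd w (fun y => c * g y) x = c * pd w g x := by
  have := congrFun (pd_aff 1 0 w c g) x
  simpa using this

theorem cube_lower (hd : 0 < d) {k : ℕ} {c : ℝ} (hc0 : 0 < c) (hc : c < sInf (SS d k)) :
    ∀ᶠ m : ℕ in atTop, ∀ T : Finset (Fin d → ℝ), T.card ≤ m → ∃ F : (Fin d → ℝ) → ℝ,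
      ContDiff ℝ k F ∧ (∀ (w : List (Fin d)) x, x ∉ ball (0 : Fin d → ℝ) (1 / 2) → pd w F x = 0) ∧
      (∀ w : List (Fin d), w.length ≤ k → ∀ x, |pd w F x| ≤ 1) ∧ (∀ p ∈ T, F p = 0) ∧
      c / (m : ℝ) ^ ((k : ℝ) / d) ≤ ∫ x in ball 0 (1 / 2), F x := by
  classical
  obtain ⟨s, hs'⟩ : ∃ s, s = (k : ℝ) / d := ⟨_, rfl⟩
  have hs : 0 ≤ s := hs' ▸ by positivity
  obtain ⟨c0, hc0'⟩ : ∃ c0, c0 = sInf (SS d k) := ⟨_, rfl⟩
  rw [← hc0'] at hc
  obtain ⟨ε, hε, -, hεc⟩ := exists_pos_of_cont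
    (F := fun ε => (c0 - ε) - (1 + ε) ^ s * (c * (1 + ε) + ε))
    (Continuous.continuousAt ((by fun_prop : Continuous fun ε : ℝ => c0 - ε).sub
      (((Real.continuous_rpow_const hs).comp (by fun_prop)).mul (by fun_prop))))
    (by simpa using hc)
  obtain ⟨A, δ0, hA, hδ0, H⟩ := cone_bound (d := d) isOpen_ball cone_ball k
  obtain ⟨C, hC, HG⟩ := grid (isBounded_ball (x := (0 : Fin d → ℝ)) (r := 1 / 2))
  have hK : 0 < C / ε := by positivity
  obtain ⟨t, ht0, ht1, ht⟩ := exists_pos_of_cont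
    (F := fun t => ε / (A ^ k * (C / ε) ^ s) - (1 - (1 - t) ^ d)) (by fun_prop)
    (by simp only [sub_zero, one_pow, sub_self]; positivity)
  let χ : ContDiffBump (0 : Fin d → ℝ) := ⟨(1 - t) / 2, (1 - t / 2) / 2, by linarith, by linarith⟩
  obtain ⟨CL, hCL, HL⟩ := leibniz k χ (fun n => χ.contDiff) χ.hasCompactSupport
  filter_upwards [small hd (C / ε) hδ0, small hd (C / ε) one_pos,
    small hd (C / ε) (div_pos one_pos hA), small hd (C / ε) (div_pos hε (mul_pos (by positivity : 0 < CL + 1) hA)),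
    eventually_gt_atTop 0] with m e1 e2 e3 e4 hm T hT
  have hm' : (0:ℝ) < m := by exact_mod_cast hm
  obtain ⟨p1, p2⟩ := root_pow hd (div_pos hK hm').le k
  have hδ := Real.rpow_pos_of_pos (div_pos hK hm') ((d : ℝ)⁻¹)
  obtain ⟨δ, hδ'⟩ : ∃ h, h = ((C / ε) / m) ^ ((d : ℝ)⁻¹) := ⟨_, rfl⟩
  rw [← hδ'] at e1 e2 e3 e4 p1 p2 hδ
  rw [← hs'] at p2 ⊢
  rw [le_div_iff₀ hA] at e3
  rw [le_div_iff₀ (by positivity)] at e4
  obtain ⟨T1, hT1, hT1', hT1c⟩ := HG δ hδ e2
  have hcard : ((T.filter (fun p => p ∈ ball (0 : Fin d → ℝ) (1 / 2)) ∪ T1).card : ℝ)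
      ≤ (1 + ε) * m := by
    have c1 := (Finset.card_union_le (T.filter (fun p => p ∈ ball (0 : Fin d → ℝ) (1 / 2))) T1).trans
      (Nat.add_le_add_right ((Finset.card_filter_le _ _).trans hT) _)
    have c2 : ((T.filter (fun p => p ∈ ball (0 : Fin d → ℝ) (1 / 2)) ∪ T1).card : ℝ)
      ≤ m + T1.card := by exact_mod_cast c1
    have c3 : (T1.card : ℝ) ≤ ε * m := by
      rw [p1, div_div, ← mul_div_assoc, div_le_iff₀ (by positivity)] at hT1c
      refine le_of_mul_le_mul_right ?_ hC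
      linarith
    linarith
  have hpos : 0 < (1 + ε) ^ s * (c * (1 + ε) + ε) := by positivity
  have hP : 0 < ((1 + ε) * m) ^ s := by positivity
  obtain ⟨f, hf, hf0, hfi⟩ : ∃ f ∈ GG d k,
      (∀ p ∈ T.filter (fun p => p ∈ ball (0 : Fin d → ℝ) (1 / 2)) ∪ T1, f p = 0) ∧
      (c0 - ε) / ((1 + ε) * m) ^ s < ∫ x in ball 0 (1 / 2), f x := by
    by_contra hn
    push Not at hn
    have h1 := csInf_le (s := SS d k) ⟨0, fun v hv => SS_nonneg hv⟩
      ⟨T.filter (fun p => p ∈ ball (0 : Fin d → ℝ) (1 / 2)) ∪ T1, _,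
        fun p hp => (Finset.mem_union.1 hp).elim (fun h => (Finset.mem_filter.1 h).2) (hT1 p),
        hn, rfl⟩
    rw [← hs', ← hc0'] at h1
    have h2 := mul_le_mul_of_nonneg_right (Real.rpow_le_rpow (Nat.cast_nonneg _) hcard hs)
      (div_nonneg (by linarith : 0 ≤ c0 - ε) hP.le)
    rw [mul_div_cancel₀ _ hP.ne'] at h2
    linarith
  have hb := H δ hδ e1 f hf.1 hf.2.2 fun z hz => hf0 _ (Finset.mem_union_right _ (hT1' z hz))
  have hAδ : 0 < A * δ := by positivity
  have hb1 : ∀ v : List (Fin d), v.length < k → ∀ x ∈ ball (0 : Fin d → ℝ) (1 / 2),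
      |pd v f x| ≤ A * δ := fun v hv x hx =>
    (hb (k - v.length) v (by omega) x hx).trans
      (pow_le_of_le_one hAδ.le (by linarith) (by omega))
  have hb2 : ∀ v : List (Fin d), v.length ≤ k → ∀ x ∈ ball (0 : Fin d → ℝ) (1 / 2),
      |pd v f x| ≤ 1 := fun v hv x hx =>
    (hb (k - v.length) v (by omega) x hx).trans (pow_le_one₀ hAδ.le (by linarith))
  have hout : EqOn (fun y => (1 + ε)⁻¹ * (χ y * f y)) (fun _ => 0) (closedBall 0 χ.rOut)ᶜ := by
    intro y hy
    have : χ y = 0 := χ.zero_of_le_dist (le_of_lt (by simpa using hy))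
    simp [this]
  have hcomp : ∀ x, x ∉ ball (0 : Fin d → ℝ) (1 / 2) → x ∈ (closedBall (0 : Fin d → ℝ) χ.rOut)ᶜ :=
    fun x hx hx' => hx (closedBall_subset_ball (by simp only [χ]; linarith) hx')
  have hz : ∀ (w : List (Fin d)) x, x ∉ ball (0 : Fin d → ℝ) (1 / 2) →
      pd w (fun y => (1 + ε)⁻¹ * (χ y * f y)) x = 0 := fun w x hx => by
    rw [pd_congr isClosed_closedBall.isOpen_compl w hout (hcomp x hx), pd_zero]
  refine ⟨fun y => (1 + ε)⁻¹ * (χ y * f y), contDiff_iff_contDiffAt.2 fun x => ?_, hz, ?_, ?_, ?_⟩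
  · by_cases hx : x ∈ ball (0 : Fin d → ℝ) (1 / 2)
    · exact contDiffAt_const.mul (χ.contDiffAt.mul (hf.1.contDiffAt (isOpen_ball.mem_nhds hx)))
    · exact contDiffAt_const.congr_of_eventuallyEq
        (hout.eventuallyEq_of_mem (isClosed_closedBall.isOpen_compl.mem_nhds (hcomp x hx)))
  · intro w hw x
    by_cases hx : x ∈ ball (0 : Fin d → ℝ) (1 / 2)
    · have a1 := HL w hw _ f (A * δ) isOpen_ball (cd_mono hf.1 hw) hAδ.le
        (fun v hv => hb1 v (by omega)) x hx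
      have a2 : |χ x * pd w f x| ≤ 1 := by
        rw [abs_mul, abs_of_nonneg χ.nonneg]
        exact mul_le_one₀ χ.le_one (abs_nonneg _) (hb2 w hw x hx)
      rw [pd_cmul, abs_mul, abs_of_pos (by positivity), inv_mul_le_iff₀ (by positivity)]
      rw [abs_le] at a1 a2 ⊢
      constructor <;> nlinarith [a1.1, a1.2, a2.1, a2.2]
    · rw [hz w x hx]; simp
  · intro p hp
    by_cases hx : p ∈ ball (0 : Fin d → ℝ) (1 / 2)
    · beta_reduce
      rw [hf0 p (Finset.mem_union_left _ (Finset.mem_filter.2 ⟨hp, hx⟩))]; simp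
    · exact hz [] p hx
  · have I1 : IntegrableOn f (ball 0 (1 / 2)) :=
      int_bdd isOpen_ball isBounded_ball hf.1.continuousOn (hb2 [] (by simp))
    have hb3 : ∀ x ∈ ball (0 : Fin d → ℝ) (1 / 2), |(1 - χ x) * f x| ≤ (A * δ) ^ k := by
      intro x hx
      rw [abs_mul, abs_of_nonneg (sub_nonneg.2 χ.le_one)]
      exact (mul_le_of_le_one_left (abs_nonneg _) (by linarith [χ.nonneg' x])).trans
        (hb k [] (by simp) x hx)
    have I2 : IntegrableOn (fun x => (1 - χ x) * f x) (ball 0 (1 / 2)) :=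
      int_bdd isOpen_ball isBounded_ball
        ((continuous_const.sub χ.continuous).continuousOn.mul hf.1.continuousOn) hb3
    have e1 : ∫ x in ball 0 (1 / 2), χ x * f x
        = (∫ x in ball 0 (1 / 2), f x) - ∫ x in ball 0 (1 / 2), (1 - χ x) * f x := by
      rw [← integral_sub I1 I2]; congr 1; funext x; ring
    have hsub : ball (0 : Fin d → ℝ) ((1 - t) / 2) ⊆ ball 0 (1 / 2) := ball_subset_ball (by linarith)
    have e2 : ∫ x in ball 0 (1 / 2), (1 - χ x) * f x ≤ ε / (m : ℝ) ^ s := by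
      rw [setIntegral_eq_of_subset_of_forall_sdiff_eq_zero measurableSet_ball
        (sdiff_subset (t := ball 0 ((1 - t) / 2))) (fun x hx => by
          have : x ∈ ball (0 : Fin d → ℝ) ((1 - t) / 2) := by
            by_contra hn; exact hx.2 ⟨hx.1, hn⟩
          rw [χ.one_of_mem_closedBall (ball_subset_closedBall this)]; simp)]
      refine (le_abs_self _).trans ((int_le ((measure_mono sdiff_subset).trans_lt
        measure_ball_lt_top) fun x hx => hb3 x hx.1).trans ?_)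
      rw [measureReal_sdiff hsub measurableSet_ball measure_ball_lt_top.ne, vol_ball _ (by norm_num),
        vol_ball _ (by linarith), show (2 * (1 / 2) : ℝ) = 1 by norm_num, one_pow,
        show 2 * ((1 - t) / 2) = 1 - t by ring]
      refine (mul_le_mul_of_nonneg_left (sub_pos.1 ht).le (by positivity)).trans (le_of_eq ?_)
      rw [mul_pow, p2, Real.div_rpow hK.le hm'.le]
      field_simp
    rw [integral_const_mul, e1, le_inv_mul_iff₀ (by positivity)]
    have hms : 0 < (m : ℝ) ^ s := by positivity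
    have hes : 0 < (1 + ε) ^ s := by positivity
    have e3 : (c * (1 + ε) + ε) / (m : ℝ) ^ s ≤ (c0 - ε) / ((1 + ε) * m) ^ s := by
      rw [Real.mul_rpow (by positivity) hm'.le, ← div_div]
      refine div_le_div_of_nonneg_right ?_ hms.le
      rw [le_div_iff₀ hes]; linarith
    have e4 : (1 + ε) * (c / (m : ℝ) ^ s) = (c * (1 + ε) + ε) / (m : ℝ) ^ s - ε / (m : ℝ) ^ s := by
      ring
    linarith

lemma jensen {ι : Type*} (Z : Finset ι) (x : ι → ℝ) (hx : ∀ z ∈ Z, 0 < x z) {a s : ℝ} (ha : 0 < a)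
    (hs : 0 ≤ s) (h : ∑ z ∈ Z, x z ≤ Z.card * a) : Z.card / a ^ s ≤ ∑ z ∈ Z, 1 / x z ^ s := by
  have one : ∀ z ∈ Z, (1 - s * (x z / a - 1)) / a ^ s ≤ 1 / x z ^ s := by
    intro z hz
    have h0 := hx z hz
    have h1 : 1 - s * (x z / a - 1) ≤ (x z / a) ^ (-s) := by
      rw [Real.rpow_def_of_pos (by positivity)]
      have a1 := Real.add_one_le_exp (Real.log (x z / a) * -s)
      have a2 := mul_le_mul_of_nonneg_left (Real.log_le_sub_one_of_pos (div_pos h0 ha)) hs
      linarith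
    rw [Real.rpow_neg (by positivity), Real.div_rpow h0.le ha.le, inv_div] at h1
    rw [div_le_iff₀ (by positivity), one_div_mul_eq_div]
    exact h1
  refine le_trans ?_ (Finset.sum_le_sum one)
  rw [← Finset.sum_div]
  refine div_le_div_of_nonneg_right ?_ (by positivity)
  rw [Finset.sum_sub_distrib, ← Finset.mul_sum, Finset.sum_sub_distrib, ← Finset.sum_div]
  have : (∑ z ∈ Z, x z) / a ≤ Z.card := by rwa [div_le_iff₀ ha]
  simp only [Finset.sum_const, nsmul_eq_mul, mul_one]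
  nlinarith

theorem lower (hd : 0 < d) {k : ℕ} {D : Set (Fin d → ℝ)} (hD : Adm D)
    {c : ℝ} (hc0 : 0 < c) (hc : c < sInf (SS d k)) :
    ∀ᶠ n : ℕ in atTop, ENNReal.ofReal (c / (n : ℝ) ^ ((k : ℝ) / d)) ≤ err k n D := by
  classical
  obtain ⟨s, hs'⟩ : ∃ s, s = (k : ℝ) / d := ⟨_, rfl⟩
  have hs : 0 ≤ s := hs' ▸ by positivity
  obtain ⟨c0, hc0'⟩ : ∃ c0, c0 = sInf (SS d k) := ⟨_, rfl⟩
  rw [← hc0'] at hc
  obtain ⟨ε, hε, hε1, hεc⟩ := exists_pos_of_cont
    (F := fun ε => (c0 - ε) * ((1 - ε) * (1 - ε) ^ s) - c * (1 + ε) ^ s)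
    (Continuous.continuousAt (((by fun_prop : Continuous fun ε : ℝ => c0 - ε).mul
      ((by fun_prop : Continuous fun ε : ℝ => 1 - ε).mul
        ((Real.continuous_rpow_const hs).comp (by fun_prop)))).sub
      (continuous_const.mul ((Real.continuous_rpow_const hs).comp (by fun_prop)))))
    (by simpa using hc)
  have h1ε : 0 < 1 - ε := by linarith
  have hc1 : 0 < c0 - ε := by
    have a1 : 0 < (1 - ε) * (1 - ε) ^ s := by positivity
    have a2 : 0 < c * (1 + ε) ^ s := by positivity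
    exact (mul_pos_iff_of_pos_right a1).1 (by linarith)
  obtain ⟨N, HN⟩ := eventually_atTop.1
    ((cube_lower hd hc1 (k := k) (by rw [← hc0']; linarith)).and (eventually_gt_atTop 0))
  obtain ⟨h0, hh0, HT⟩ := tiling hd hD.1 hD.2.1 hε
  obtain ⟨h, hh'⟩ : ∃ h, h = min h0 1 := ⟨_, rfl⟩
  have hh : 0 < h := hh' ▸ by positivity
  have hh1 : h ≤ 1 := hh' ▸ min_le_right _ _
  obtain ⟨Z, hZ, hZv⟩ := HT h hh (hh' ▸ min_le_left _ _)
  have hUb : Bornology.IsBounded (interior D) := hD.1.subset interior_subset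
  have hsub : (⋃ z ∈ Z, cube h z) ⊆ interior D := iUnion₂_subset hZ
  have hmeas : MeasurableSet (⋃ z ∈ Z, cube h z) :=
    Finset.measurableSet_biUnion _ fun z _ => measurableSet_ball
  have hM : 1 - ε ≤ Z.card * h ^ d := by
    rw [measureReal_sdiff hsub hmeas hUb.measure_lt_top.ne, vol_interior hD, vol_union hh] at hZv
    linarith
  have hZ0 : (0:ℝ) < Z.card := (mul_pos_iff_of_pos_right (pow_pos hh d)).1 (h1ε.trans_le hM)
  filter_upwards [tendsto_natCast_atTop_atTop.eventually (eventually_ge_atTop (Z.card * N / ε : ℝ)),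
    eventually_gt_atTop 0] with n hn1 hn
  have hn' : (0:ℝ) < n := by exact_mod_cast hn
  rw [div_le_iff₀ hε] at hn1
  refine le_err fun T hT => ?_
  let ψ : (Fin d → ℤ) → (Fin d → ℝ) → Fin d → ℝ := fun z y => h⁻¹ • y + -(h⁻¹ • gp h z)
  have hψ : ∀ z y, h • ψ z y + gp h z = y := by
    intro z y; funext i
    simp only [ψ, Pi.add_apply, Pi.smul_apply, Pi.neg_apply, smul_eq_mul]; field_simp; ring
  have hψ' : ∀ z y, ψ z (h • y + gp h z) = y := by
    intro z y; funext i
    simp only [ψ, Pi.add_apply, Pi.smul_apply, Pi.neg_apply, smul_eq_mul]; field_simp; ring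
  have hmem : ∀ z y, ψ z y ∈ ball (0 : Fin d → ℝ) (1 / 2) ↔ y ∈ cube h z := by
    intro z y; rw [← mem_scale hh (gp h z), hψ]; rfl
  let m : (Fin d → ℤ) → ℕ := fun z => (T.filter fun p => p ∈ cube h z).card + N
  choose F hF1 hF2 hF3 hF4 hF5 using fun z => (HN (m z) (Nat.le_add_left _ _)).1
    ((T.filter fun p => p ∈ cube h z).image (ψ z))
    (Finset.card_image_le.trans (Nat.le_add_right _ _))
  have hG : ∀ z, ContDiff ℝ k fun y => 1 * F z (ψ z y) := fun z =>
    contDiff_const.mul ((hF1 z).comp (by simp only [ψ]; fun_prop))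
  have hpd : ∀ w : List (Fin d), w.length ≤ k → ∀ x,
      |pd w (fun y => ∑ z ∈ Z, h ^ k * (1 * F z (ψ z y))) x| ≤ 1 := by
    intro w hw x
    rw [pd_sum isOpen_univ Z _ w (fun z _ => cd_mono (hG z).contDiffOn hw) x (mem_univ x)]
    simp only [ψ, pd_aff]
    by_cases hx : ∃ z ∈ Z, x ∈ cube h z
    · obtain ⟨z, hz, hxz⟩ := hx
      rw [Finset.sum_eq_single_of_mem z hz fun z' _ hne => by
        rw [hF2 z' w _ fun hm => Set.disjoint_left.1 (cube_disj hh hne) ((hmem z' x).1 hm) hxz]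
        simp]
      rw [← mul_assoc, abs_mul]
      refine mul_le_one₀ ?_ (abs_nonneg _) (hF3 z w hw _)
      rw [one_mul, inv_pow, ← div_eq_mul_inv, abs_of_pos (by positivity),
        div_le_one (by positivity)]
      exact pow_le_pow_of_le_one hh.le hh1 hw
    · rw [Finset.sum_eq_zero fun z hz => by
        rw [hF2 z w _ fun hm => hx ⟨z, hz, (hmem z x).1 hm⟩]; simp]
      simp
  refine ⟨fun y => ∑ z ∈ Z, h ^ k * (1 * F z (ψ z y)),
    ⟨(ContDiff.sum fun z _ => contDiff_const.mul (hG z)).contDiffOn,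
      fun x _ => hpd [] (by simp) x, fun w hw x _ => hpd w hw x⟩, fun p hp => ?_, ?_⟩
  · refine Finset.sum_eq_zero fun z _ => ?_
    by_cases hz : p ∈ cube h z
    · rw [hF4 z _ (Finset.mem_image_of_mem _ (Finset.mem_filter.2 ⟨hp, hz⟩))]; simp
    · have : F z (ψ z p) = 0 := hF2 z [] _ fun hm => hz ((hmem z p).1 hm)
      rw [this]; simp
  have hI : ∀ z, IntegrableOn (fun y => 1 * F z (ψ z y)) (interior D) := fun z =>
    int_bdd isOpen_interior hUb (hG z).continuous.continuousOn (B := 1) fun x _ => by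
      rw [one_mul]; exact hF3 z [] (by simp) _
  rw [int_interior hD.2.1, integral_finsetSum _ fun z _ => (hI z).const_mul _]
  have i1 : ∀ z ∈ Z, h ^ k * h ^ d * (c0 - ε) * (1 / (m z : ℝ) ^ s) ≤
      ∫ y in interior D, h ^ k * (1 * F z (ψ z y)) := by
    intro z hz
    rw [integral_const_mul, setIntegral_eq_of_subset_of_forall_sdiff_eq_zero
      isOpen_interior.measurableSet (hZ z hz) (fun x hx => by
        have : F z (ψ z x) = 0 := hF2 z [] _ fun hm => hx.2 ((hmem z x).1 hm)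
        rw [this]; simp), cube, int_scale hh]
    simp only [hψ', one_mul]
    have := hF5 z
    rw [← hs'] at this
    rw [mul_assoc, mul_assoc, mul_one_div]
    gcongr
  refine le_trans ?_ (Finset.sum_le_sum i1)
  rw [← Finset.mul_sum]
  have hsum : ∑ z ∈ Z, (m z : ℝ) ≤ Z.card * ((1 + ε) * n / Z.card) := by
    have c1 : ∑ z ∈ Z, (T.filter fun p => p ∈ cube h z).card ≤ n := by
      rw [← Finset.card_biUnion (t := fun z => T.filter fun p => p ∈ cube h z) fun z _ z' _ hne =>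
        Finset.disjoint_filter.2         fun p _ h1 h2 => Set.disjoint_left.1 (cube_disj hh hne) h1 h2]
      exact (Finset.card_le_card (Finset.biUnion_subset.2 fun z _ => Finset.filter_subset _ _)).trans hT
    have c2 : ∑ z ∈ Z, ((T.filter fun p => p ∈ cube h z).card : ℝ) ≤ n := by exact_mod_cast c1
    simp only [m, Nat.cast_add, Finset.sum_add_distrib, Finset.sum_const, nsmul_eq_mul]
    rw [mul_div_cancel₀ _ hZ0.ne']
    linarith
  have j := jensen Z (fun z => (m z : ℝ)) (fun z _ => by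
    exact_mod_cast (HN (m z) (Nat.le_add_left _ _)).2) (by positivity) hs hsum
  refine le_trans ?_ (mul_le_mul_of_nonneg_left j (by positivity))
  have e1 : h ^ k = (h ^ d) ^ s := by
    rw [← Real.rpow_natCast h d, ← Real.rpow_mul hh.le, hs', mul_div_cancel₀ _ (by positivity),
      Real.rpow_natCast]
  have e2 : h ^ k * h ^ d * (c0 - ε) * (Z.card / ((1 + ε) * n / Z.card) ^ s) =
      (c0 - ε) * ((Z.card * h ^ d) * (Z.card * h ^ d) ^ s) / (1 + ε) ^ s / (n : ℝ) ^ s := by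
    rw [e1, Real.div_rpow (by positivity) hZ0.le, Real.mul_rpow (by positivity) hn'.le,
      Real.mul_rpow hZ0.le (by positivity)]
    field_simp
  rw [e2, ← hs']
  refine div_le_div_of_nonneg_right ?_ (by positivity)
  rw [le_div_iff₀ (by positivity)]
  have : (c0 - ε) * ((1 - ε) * (1 - ε) ^ s) ≤ (c0 - ε) * ((Z.card * h ^ d) * (Z.card * h ^ d) ^ s) := by
    gcongr
  linarith

end Pool.Agent.H.MP_935800_an
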