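import Mathlib

set_option autoImplicit false

namespace Pool.Agent.H.MP_935800_an

open MeasureTheory

/-- The derivative of f in the i-th coordinate direction. -/
noncomputable def pt {d : ℕ} (i : Fin d) (f : (Fin d → ℝ) → ℝ) : (Fin d → ℝ) → ℝ :=
  fun x => lineDeriv ℝ f x (Pi.single i 1)

/-- Iterated coordinate derivative along the list w of coordinate directions. -/
noncomputable def pd {d : ℕ} (w : List (Fin d)) (f : (Fin d → ℝ) → ℝ) : (Fin d → ℝ) → ℝ :=
  w.foldl (fun g i => pt i g) f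

/-- The class of functions that are C^k on the interior of D with all derivatives of order at most k
bounded by one. -/
def FF {d : ℕ} (k : ℕ) (D : Set (Fin d → ℝ)) : Set ((Fin d → ℝ) → ℝ) :=
  {f | ContDiffOn ℝ k f (interior D) ∧ (∀ x ∈ D, |f x| ≤ 1) ∧
    ∀ w : List (Fin d), w.length ≤ k → ∀ x ∈ interior D, |pd w f x| ≤ 1}

/-- The n-th minimal worst-case error of integration over D on the class FF k D. -/
noncomputable def err {d : ℕ} (k n : ℕ) (D : Set (Fin d → ℝ)) : ENNReal :=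
  ⨅ (x : Fin n → D) (φ : (Fin n → ℝ) → ℝ), ⨆ f ∈ FF k D,
    ENNReal.ofReal |(∫ y in D, f y) - φ (fun i => f (x i))|

/-- Bounded Jordan measurable sets of volume one. -/
def Adm {d : ℕ} (D : Set (Fin d → ℝ)) : Prop :=
  Bornology.IsBounded D ∧ volume (frontier D) = 0 ∧ volume D = 1

/-- Interior cone condition. -/
def Cone {d : ℕ} (U : Set (Fin d → ℝ)) : Prop :=
  ∃ ρ R : ℝ, 0 < ρ ∧ ∀ x ∈ U, ∃ y, dist y x ≤ R ∧ ∀ u ∈ Metric.closedBall y ρ, segment ℝ x u ⊆ U

end Pool.Agent.H.MP_935800_an
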