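import Pool.Agent.H.MP_935800_an.D

set_option autoImplicit false

namespace Pool.Agent.H.MP_935800_an

open Set Filter Topology MeasureTheory Metric

variable {d : ℕ}

lemma cancel {c s : ℝ} {n : ℕ} (hn : 0 < n) :
    ENNReal.ofReal (c / (n : ℝ) ^ s) * ENNReal.ofReal ((n : ℝ) ^ s) = ENNReal.ofReal c := by
  have : (0:ℝ) < (n : ℝ) ^ s := by positivity
  rw [← ENNReal.ofReal_mul' this.le, div_mul_cancel₀ _ this.ne']

theorem regular (hd : 0 < d) (k : ℕ) {D : Set (Fin d → ℝ)} (hD : Adm D) (hC : Cone (interior D)) :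
    Tendsto (fun n : ℕ => err k n D * ENNReal.ofReal ((n : ℝ) ^ ((k : ℝ) / d))) atTop
      (𝓝 (ENNReal.ofReal (sInf (SS d k)))) := by
  refine tendsto_order.2 ⟨fun a ha => ?_, fun a ha => ?_⟩
  · obtain ⟨r, hr0, h1, h2⟩ := ENNReal.lt_iff_exists_real_btwn.1 ha
    have hr : 0 < r := ENNReal.ofReal_pos.1 ((zero_le (a := a)).trans_lt h1)
    filter_upwards [lower hd hD hr ((ENNReal.ofReal_lt_ofReal_iff_of_nonneg hr0).1 h2),
      eventually_gt_atTop 0] with n h hn
    refine h1.trans_le ?_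
    rw [← cancel (c := r) hn]
    exact mul_le_mul_left h _
  · obtain ⟨r, hr0, h1, h2⟩ := ENNReal.lt_iff_exists_real_btwn.1 ha
    have h0 : 0 ≤ sInf (SS d k) := le_csInf (SS_ne k) fun v hv => SS_nonneg hv
    filter_upwards [upper hd hD hC ((ENNReal.ofReal_lt_ofReal_iff_of_nonneg h0).1 h1),
      eventually_gt_atTop 0] with n h hn
    refine lt_of_le_of_lt ?_ h2
    rw [← cancel (c := r) hn]
    exact mul_le_mul_left h _

lemma pd_const (c : ℝ) (hc : |c| ≤ 1) (w : List (Fin d)) (x : Fin d → ℝ) :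
    |pd w (fun _ => c) x| ≤ 1 := by
  rcases w with _ | ⟨i, w⟩
  · exact hc
  · have : pt i (fun _ : Fin d → ℝ => c) = fun _ => 0 := by
      funext y; simp [pt, lineDeriv]
    rw [pd_cons, this, pd_zero]; simp

theorem slits (i0 : Fin d) (l : ℕ → ℝ) (hl : ∀ j, 0 < l j) (hs : HasSum l 1) (ha : Antitone l)
    (k : ℕ) : ∃ D : Set (Fin d → ℝ), IsOpen D ∧ Adm D ∧
      ∀ n : ℕ, ENNReal.ofReal (n * l (2 * n)) ≤ err k n D := by
  classical
  let a : ℕ → ℝ := fun j => ∑ i ∈ Finset.range j, l i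
  have ha1 : ∀ j, a (j + 1) = a j + l j := fun j => Finset.sum_range_succ _ _
  have ham : Monotone a := monotone_nat_of_le_succ fun j => by rw [ha1]; linarith [hl j]
  have ha0 : ∀ j, 0 ≤ a j := fun j => Finset.sum_nonneg fun i _ => (hl i).le
  have ha2 : ∀ j, a j ≤ 1 := fun j => sum_le_hasSum _ (fun i _ => (hl i).le) hs
  let B : ℕ → Set (Fin d → ℝ) := fun j => Set.univ.pi fun i =>
    Ioo (if i = i0 then a j else 0) (if i = i0 then a (j + 1) else 1)
  have hBo : ∀ j, IsOpen (B j) := fun j => isOpen_set_pi finite_univ fun i _ => isOpen_Ioo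
  have hBv : ∀ j, volume (B j) = ENNReal.ofReal (l j) := by
    intro j
    rw [Real.volume_pi_Ioo, Finset.prod_eq_single i0 (fun i _ hi => by simp [hi]) (by simp)]
    simp [ha1]
  have hlt : ∀ i j, i < j → Disjoint (B i) (B j) := fun i j hij =>
    Set.disjoint_left.2 fun x h1 h2 => by
      have b1 := (h1 i0 trivial).2
      have b2 := (h2 i0 trivial).1
      simp only [if_true] at b1 b2
      have := ham (show i + 1 ≤ j from hij)
      linarith
  have hBd : ∀ i j, i ≠ j → Disjoint (B i) (B j) := fun i j hij =>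
    (lt_or_gt_of_ne hij).elim (hlt i j) fun h => (hlt j i h).symm
  have hO : IsOpen (⋃ j, B j) := isOpen_iUnion hBo
  have hsub : (⋃ j, B j) ⊆ Icc 0 1 := iUnion_subset fun j x hx =>
    ⟨fun i => by
      have := (hx i trivial).1
      have := ha0 j
      split_ifs at * <;> simp only [Pi.zero_apply] <;> linarith,
    fun i => by
      have := (hx i trivial).2
      have := ha2 (j + 1)
      split_ifs at * <;> simp only [Pi.one_apply] <;> linarith⟩
  have hv : volume (⋃ j, B j) = 1 := by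
    rw [measure_iUnion (fun i j h => hBd i j h) fun j => (hBo j).measurableSet]
    simp only [hBv]
    rw [← ENNReal.ofReal_tsum_of_nonneg (fun j => (hl j).le) hs.summable, hs.tsum_eq]; simp
  have hF : volume (frontier (⋃ j, B j)) = 0 := by
    rw [hO.frontier_eq]
    refine measure_mono_null (sdiff_subset_sdiff_left (closure_minimal hsub isClosed_Icc)) ?_
    rw [measure_sdiff hsub hO.measurableSet.nullMeasurableSet (by rw [hv]; simp), hv,
      Real.volume_Icc_pi]
    simp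
  refine ⟨⋃ j, B j, hO, ⟨(isBounded_Icc _ _).subset hsub, hF, hv⟩, fun n => le_err fun T hT => ?_⟩
  let S := (Finset.range (2 * n)).filter fun j => ¬ ∃ p ∈ T, p ∈ B j
  have hS : n ≤ S.card := by
    have h1 := Finset.card_filter_add_card_filter_not (s := Finset.range (2 * n))
      (fun j => ∃ p ∈ T, p ∈ B j)
    have h2 : ((Finset.range (2 * n)).filter fun j => ∃ p ∈ T, p ∈ B j).card ≤ T.card :=
      Finset.card_le_card_of_forall_subsingleton (fun j p => p ∈ B j)
        (fun j hj => (Finset.mem_filter.1 hj).2) fun p _ i hi j hj => by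
          by_contra hne
          exact Set.disjoint_left.1 (hBd i j hne) hi.2 hj.2
    rw [Finset.card_range] at h1
    simp only [S]; omega
  let f : (Fin d → ℝ) → ℝ := (⋃ j ∈ S, B j).indicator fun _ => 1
  have hloc : ∀ j, ∃ c : ℝ, |c| ≤ 1 ∧ EqOn f (fun _ => c) (B j) := by
    intro j
    by_cases hj : j ∈ S
    · exact ⟨1, by simp, fun x hx => indicator_of_mem (mem_iUnion₂.2 ⟨j, hj, hx⟩) _⟩
    · refine ⟨0, by simp, fun x hx => indicator_of_notMem (fun h => ?_) _⟩
      obtain ⟨i, hi, hxi⟩ := mem_iUnion₂.1 h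
      exact Set.disjoint_left.1 (hBd i j fun e => hj (e ▸ hi)) hxi hx
  have hpd : ∀ (w : List (Fin d)), ∀ x ∈ ⋃ j, B j, |pd w f x| ≤ 1 := by
    intro w x hx
    obtain ⟨j, hj⟩ := mem_iUnion.1 hx
    obtain ⟨c, hc, e⟩ := hloc j
    rw [pd_congr (hBo j) w e hj]
    exact pd_const c hc w x
  refine ⟨f, ⟨fun x hx => ?_, hpd [], fun w _ x hx => hpd w x (interior_subset hx)⟩,
    fun p hp => indicator_of_notMem (fun h => ?_) _, ?_⟩
  · obtain ⟨j, hj⟩ := mem_iUnion.1 (interior_subset hx)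
    obtain ⟨c, -, e⟩ := hloc j
    exact (contDiffAt_const.congr_of_eventuallyEq
      (e.eventuallyEq_of_mem ((hBo j).mem_nhds hj))).contDiffWithinAt
  · obtain ⟨i, hi, hxi⟩ := mem_iUnion₂.1 h
    exact (Finset.mem_filter.1 hi).2 ⟨p, hp, hxi⟩
  · have hm : MeasurableSet (⋃ j ∈ S, B j) :=
      Finset.measurableSet_biUnion _ fun j _ => (hBo j).measurableSet
    rw [setIntegral_indicator hm, inter_eq_right.2 (iUnion₂_subset fun j _ => subset_iUnion B j),
      setIntegral_const, smul_eq_mul, mul_one, measureReal_biUnion_finset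
        (fun i _ j _ h => hBd i j h) (fun j _ => (hBo j).measurableSet)
        (fun j _ => by rw [hBv]; simp)]
    calc (n : ℝ) * l (2 * n) ≤ S.card * l (2 * n) :=
          mul_le_mul_of_nonneg_right (by exact_mod_cast hS) (hl _).le
      _ = ∑ _j ∈ S, l (2 * n) := by simp
      _ ≤ _ := Finset.sum_le_sum fun j hj => by
          rw [measureReal_def, hBv, ENNReal.toReal_ofReal (hl j).le]
          exact ha (Finset.mem_range.1 (Finset.mem_filter.1 hj).1).le

theorem irregular (hd : 0 < d) {k : ℕ} (hk : 0 < k) : ∃ D : Set (Fin d → ℝ), IsOpen D ∧ Adm D ∧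
    Tendsto (fun n : ℕ => err k n D * ENNReal.ofReal ((n : ℝ) ^ ((k : ℝ) / d))) atTop (𝓝 ⊤) := by
  obtain ⟨δ, hδ'⟩ : ∃ δ : ℝ, δ = 1 / (2 * d) := ⟨_, rfl⟩
  have hd' : (0:ℝ) < d := by exact_mod_cast hd
  have hδ : 0 < δ := hδ' ▸ by positivity
  have hk' : 2 * δ ≤ (k : ℝ) / d := by
    have : (1:ℝ) ≤ k := by exact_mod_cast hk
    rw [hδ', le_div_iff₀ hd']; field_simp; exact this
  let u : ℕ → ℝ := fun j => (((j + 1 : ℕ) : ℝ) ^ (1 + δ))⁻¹
  have hu : ∀ j, 0 < u j := fun j => by positivity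
  have hsum : Summable u :=
    (summable_nat_add_iff (f := fun j : ℕ => ((j : ℝ) ^ (1 + δ))⁻¹) 1).2
      (Real.summable_nat_rpow_inv.2 (by linarith))
  have hS : 0 < ∑' j, u j := hsum.tsum_pos (fun j => (hu j).le) 0 (hu 0)
  obtain ⟨D, hO, hD, H⟩ := slits ⟨0, hd⟩ (fun j => u j / ∑' j, u j) (fun j => div_pos (hu j) hS)
    (by simpa [hS.ne'] using hsum.hasSum.div_const (∑' j, u j))
    (fun i j hij => div_le_div_of_nonneg_right (inv_anti₀ (by positivity)
      (Real.rpow_le_rpow (by positivity) (by exact_mod_cast Nat.succ_le_succ hij) (by linarith)))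
      hS.le) k
  refine ⟨D, hO, hD, ?_⟩
  have t1 : Tendsto (fun n : ℕ => ENNReal.ofReal ((n : ℝ) ^ δ / (3 ^ (1 + δ) * ∑' j, u j)))
      atTop (𝓝 ⊤) :=
    ENNReal.tendsto_ofReal_atTop.comp
      (((tendsto_rpow_atTop hδ).comp tendsto_natCast_atTop_atTop).atTop_div_const (by positivity))
  refine tendsto_nhds_top_mono t1 ?_
  filter_upwards [eventually_gt_atTop 0] with n hn
  refine le_trans ?_ (mul_le_mul_left (H n) _)
  have hn1 : (1:ℝ) ≤ n := by exact_mod_cast hn
  have hn0 : (0:ℝ) < n := by linarith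
  rw [← ENNReal.ofReal_mul' (by positivity)]
  refine ENNReal.ofReal_le_ofReal ?_
  have b1 : (3 ^ (1 + δ) * (n * (n : ℝ) ^ δ))⁻¹ ≤ u (2 * n) := by
    refine inv_anti₀ (by positivity) ?_
    rw [← Real.rpow_one_add' hn0.le (by linarith), ← Real.mul_rpow (by norm_num) hn0.le]
    exact Real.rpow_le_rpow (by positivity) (by push_cast; linarith) (by linarith)
  have b2 : (n : ℝ) ^ δ * (n : ℝ) ^ δ ≤ (n : ℝ) ^ ((k : ℝ) / d) := by
    rw [← Real.rpow_add hn0]
    exact Real.rpow_le_rpow_of_exponent_le hn1 (by linarith)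
  calc (n : ℝ) ^ δ / (3 ^ (1 + δ) * ∑' j, u j)
      = n * ((3 ^ (1 + δ) * (n * (n : ℝ) ^ δ))⁻¹ / ∑' j, u j) * ((n : ℝ) ^ δ * (n : ℝ) ^ δ) := by
        field_simp
    _ ≤ _ := by gcongr

end Pool.Agent.H.MP_935800_an
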